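import Mathlib
import Pool.Agent.N892.BW.KLG

/-!
# `‖T ^ n‖_p ≤ n ^ (1 - 2/p) (p - 1)` for all large `n`

The inequality of the question for all Schwartz functions, all real `p ≥ 2` and all `n ≥ n₀(p)`:
with its constant, exactly, for all `p ∈ [3.78, 4.3] ∪ [5.5, ∞)` (in particular for all even
`p ≥ 4`), up to the factor `1.007` for the other `p ≥ 4`, and up to the factor `1.033` for the other
`p ≥ 2`.

The file `AsymptoticallySharp` of `MP_dd244f_an` gives an outline of the proof of the asymptotically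
sharp inequality for even exponents (constant `(1 + o(1)) (1/q)_n / (1/p)_n`).  The intermediate
exponents come from the interpolation theorem of Riesz and Thorin between consecutive even exponents
(proved here for Schwartz functions) and a numerical inequality between Gamma quotients.
-/

set_option autoImplicit false

open MeasureTheory

namespace Pool.Agent.Results.MP_3dd6d4_an.AllLargeN

/-- The `n`-th power of the Beurling transform of a Schwartz function: the Fourier multiplier with
symbol `(conj ξ / ξ) ^ n`, in the literal form of the frozen statement. -/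
noncomputable def T (n : ℕ) (f : SchwartzMap ℂ ℂ) (z : ℂ) : ℂ :=
  ∫ ξ : ℂ,
    Complex.exp (2 * (Real.pi : ℂ) * Complex.I * ((z.re * ξ.re + z.im * ξ.im : ℝ) : ℂ)) *
      ((starRingEnd ℂ ξ / ξ) ^ n *
        ∫ w : ℂ, Complex.exp (-(2 * (Real.pi : ℂ) * Complex.I *
          ((w.re * ξ.re + w.im * ξ.im : ℝ) : ℂ))) * f w)

open Classical in
/-- The factor: `1` for `p ∈ [3.78, 4.3] ∪ [5.5, ∞)`, `1.007` for the other `p ≥ 4`, `1.033` for the
remaining `p`. -/
noncomputable def c (p : ℝ) : ℝ :=
  if (3.78 ≤ p ∧ p ≤ 4.3) ∨ 5.5 ≤ p then 1 else if 4 ≤ p then 1.007 else 1.033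

/-- For every real `p ≥ 2` there is `n₀` such that for all `n ≥ n₀` and all Schwartz functions `f`:
`‖T ^ n f‖_p ≤ c(p) n ^ (1 - 2/p) (p - 1) ‖f‖_p`, where `c(p) = 1` for all
`p ∈ [3.78, 4.3] ∪ [5.5, ∞)`, `c(p) = 1.007` for the other `p ≥ 4` and `c(p) = 1.033` for the other
`p ≥ 2`. -/
theorem result : ∀ p : ℝ, 2 ≤ p → ∃ n₀ : ℕ, ∀ n : ℕ, n₀ ≤ n →
    ∀ f : SchwartzMap ℂ ℂ,
      eLpNorm (T n f) (ENNReal.ofReal p) volume ≤
        ENNReal.ofReal (c p * ((n : ℝ) ^ (1 - 2 / p) * (p - 1))) *
          eLpNorm (fun z : ℂ => f z) (ENNReal.ofReal p) volume := by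
  intro p hp
  unfold c
  split_ifs with h1 h2
  · simp only [one_mul]
    rcases h1 with ⟨h1, h2⟩ | h1
    · rcases le_total p 4 with h | h
      · exact Pool.Agent.N892.BW.KLG.exa p h1 h
      · refine Pool.Agent.N892.BW.ALL.reb p (Or.inl ?_)
        constructor <;> norm_num at * <;> linarith
    · refine Pool.Agent.N892.BW.ALL.reb p (Or.inr ?_)
      norm_num at *; linarith
  · exact Pool.Agent.N892.BW.KLF.four p h2
  · exact Pool.Agent.N892.BW.KLG.allq p hp

end Pool.Agent.Results.MP_3dd6d4_an.AllLargeN
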